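import Pool.Agent.Q86.EM.Stm
import Pool.Agent.H888R2.KT.N7

/-!
# Job EM-COL: the covariance inequality for log-concave densities of bounded support times a Gaussian
-/

set_option autoImplicit false

namespace Pool.Agent.Q31.EM.COL

open MeasureTheory Set Filter Topology
open scoped ENNReal InnerProductSpace ContDiff
open Pool.Agent.H888R2.KT (LC pst gs zz gc)
open Pool.Agent.H212R2.KLS (mu Bdd)
open Pool.Agent.Q86.EM

variable {κ : Type} [Fintype κ]

/-- Fubini for the regularised density -/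
theorem fubz {ρ : Eu κ → ℝ} (hρ : LC ρ) (h : ℝ) (hh : 0 < h) (F : Eu κ → ℝ) (hF : Continuous F)
    (B : ℝ) (hb : ∀ y, |F y| ≤ B) :
    ∫ y, F y * zz h ρ y = gc κ h * ∫ x, gs h F x ∂(mu ρ) := by
  have h1 := (Pool.Agent.H888R2.KT.fub hρ h hh (fun _ => 1) F continuous_const hF B hb).2.2
  have hg := (Pool.Agent.H888R2.KT.gc_pos (κ := κ) h hh).1
  have h2 : ∀ y, pst h ρ (fun _ => 1) y = 1 := by
    intro y
    unfold pst
    have hz := Pool.Agent.H888R2.KT.N3x.zz_pos' hρ h y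
    have : (∫ x, (fun _ : Eu κ => (1 : ℝ)) x * Real.exp (-(‖x - y‖ ^ 2 / (2 * h))) ∂(mu ρ)) =
        zz h ρ y := by
      unfold zz
      simp
    rw [this, div_self hz.ne']
  have h3 : ∫ x, gs h F x ∂(mu ρ) = (gc κ h)⁻¹ * ∫ y, F y * zz h ρ y := by
    have e1 : ∫ x, (fun _ : Eu κ => (1 : ℝ)) x * gs h F x ∂(mu ρ) = ∫ x, gs h F x ∂(mu ρ) := by
      simp
    have e2 : ∫ y, pst h ρ (fun _ => 1) y * F y * zz h ρ y = ∫ y, F y * zz h ρ y := by
      refine integral_congr_ae (Filter.Eventually.of_forall fun y => ?_)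
      simp only [h2, one_mul]
    rw [← e1, h1, e2]
  rw [h3, mul_inv_cancel_left₀ hg.ne']

theorem gi : Integrable (fun z : Eu κ => Real.exp (-(‖z‖ ^ 2 / (2 * 1)))) := by
  have := (Pool.Agent.H888R2.KT.gc_pos (κ := κ) 1 one_pos).2.2.1 0
  refine this.congr (Filter.Eventually.of_forall fun z => ?_)
  simp only [zero_sub, norm_neg]

/-- the Gaussian average after scaling -/
theorem gs_scale (h : ℝ) (hh : 0 < h) (F : Eu κ → ℝ) (x : Eu κ) :
    gs h F x = (∫ z, F (x + √h • z) * Real.exp (-(‖z‖ ^ 2 / (2 * 1)))) / gc κ 1 := by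
  rw [Pool.Agent.H888R2.KT.N7x.gs_eq]
  have hs : √h ^ 2 = h := Real.sq_sqrt hh.le
  have key : ∀ z : Eu κ, ‖√h • z‖ ^ 2 / (2 * h) = ‖z‖ ^ 2 / (2 * 1) := by
    intro z
    rw [norm_smul, mul_pow, Real.norm_eq_abs, sq_abs, hs]
    field_simp
  have c0 : |(√h ^ Module.finrank ℝ (Eu κ))⁻¹| ≠ 0 := by
    have : 0 < √h := Real.sqrt_pos.2 hh
    positivity
  have e1 : ∫ z, F (x + √h • z) * Real.exp (-(‖z‖ ^ 2 / (2 * 1))) =
      |(√h ^ Module.finrank ℝ (Eu κ))⁻¹| •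
        ∫ z, F (x + z) * Real.exp (-(‖z‖ ^ 2 / (2 * h))) := by
    rw [← Measure.integral_comp_smul volume
      (fun z : Eu κ => F (x + z) * Real.exp (-(‖z‖ ^ 2 / (2 * h)))) (√h)]
    refine integral_congr_ae (Filter.Eventually.of_forall fun z => ?_)
    simp only [key]
  have e2 : gc κ 1 = |(√h ^ Module.finrank ℝ (Eu κ))⁻¹| • gc κ h := by
    unfold gc
    rw [← Measure.integral_comp_smul volume
      (fun z : Eu κ => Real.exp (-(‖z‖ ^ 2 / (2 * h)))) (√h)]
    refine integral_congr_ae (Filter.Eventually.of_forall fun z => ?_)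
    simp only [key]
  rw [e1, e2, smul_eq_mul, smul_eq_mul, mul_div_mul_left _ _ c0]

theorem gs_bdd (h : ℝ) (hh : 0 < h) (F : Eu κ → ℝ) (B : ℝ) (hb : ∀ y, |F y| ≤ B) (x : Eu κ) :
    |gs h F x| ≤ B := by
  rw [gs_scale h hh]
  have g1 := (Pool.Agent.H888R2.KT.gc_pos (κ := κ) 1 one_pos).1
  rw [abs_div, abs_of_pos g1, div_le_iff₀ g1]
  calc |∫ z, F (x + √h • z) * Real.exp (-(‖z‖ ^ 2 / (2 * 1)))|
      = ‖∫ z, F (x + √h • z) * Real.exp (-(‖z‖ ^ 2 / (2 * 1)))‖ := (Real.norm_eq_abs _).symm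
    _ ≤ ∫ z : Eu κ, B * Real.exp (-(‖z‖ ^ 2 / (2 * 1))) := by
        refine norm_integral_le_of_norm_le (gi.const_mul B) (Filter.Eventually.of_forall fun z => ?_)
        rw [Real.norm_eq_abs, abs_mul, Real.abs_exp]
        exact mul_le_mul_of_nonneg_right (hb _) (Real.exp_pos _).le
    _ = B * gc κ 1 := by
        rw [integral_const_mul]
        rfl

/-- Gaussian approximate identity -/
theorem gs_tendsto (F : Eu κ → ℝ) (hF : Continuous F) (B : ℝ) (hb : ∀ y, |F y| ≤ B) (x : Eu κ) :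
    Tendsto (fun h => gs h F x) (𝓝[>] 0) (𝓝 (F x)) := by
  have g1 := (Pool.Agent.H888R2.KT.gc_pos (κ := κ) 1 one_pos).1
  have h1 : Tendsto (fun h : ℝ => ∫ z, F (x + √h • z) * Real.exp (-(‖z‖ ^ 2 / (2 * 1)))) (𝓝[>] 0)
      (𝓝 (∫ z : Eu κ, F x * Real.exp (-(‖z‖ ^ 2 / (2 * 1))))) := by
    refine tendsto_integral_filter_of_dominated_convergence
      (fun z : Eu κ => B * Real.exp (-(‖z‖ ^ 2 / (2 * 1)))) ?_ ?_ (gi.const_mul B) ?_
    · refine Filter.Eventually.of_forall fun h => ?_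
      exact (by fun_prop : Continuous fun z : Eu κ =>
        F (x + √h • z) * Real.exp (-(‖z‖ ^ 2 / (2 * 1)))).aestronglyMeasurable
    · refine Filter.Eventually.of_forall fun h => Filter.Eventually.of_forall fun z => ?_
      rw [Real.norm_eq_abs, abs_mul, Real.abs_exp]
      exact mul_le_mul_of_nonneg_right (hb _) (Real.exp_pos _).le
    · refine Filter.Eventually.of_forall fun z => ?_
      have hc : Continuous fun h : ℝ => F (x + √h • z) * Real.exp (-(‖z‖ ^ 2 / (2 * 1))) := by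
        fun_prop
      have := (hc.tendsto 0).mono_left (nhdsWithin_le_nhds (s := Ioi 0))
      simpa using this
  have h2 : (∫ z : Eu κ, F x * Real.exp (-(‖z‖ ^ 2 / (2 * 1)))) / gc κ 1 = F x := by
    rw [integral_const_mul]
    exact mul_div_cancel_right₀ _ g1.ne'
  have h3 := h1.div_const (gc κ 1)
  rw [h2] at h3
  refine h3.congr' ?_
  filter_upwards [self_mem_nhdsWithin] with h hh
  exact (gs_scale h hh F x).symm

/-- the averages converge in the mean -/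
theorem int_tendsto {ρ : Eu κ → ℝ} (hρ : LC ρ) (F : Eu κ → ℝ) (hF : Continuous F) (B : ℝ)
    (hb : ∀ y, |F y| ≤ B) :
    Tendsto (fun h => ∫ x, gs h F x ∂(mu ρ)) (𝓝[>] 0) (𝓝 (∫ x, F x ∂(mu ρ))) := by
  have := Pool.Agent.H888R2.KT.N7x.fin_mu hρ
  refine tendsto_integral_filter_of_dominated_convergence (fun _ => B) ?_ ?_
    (integrable_const B) ?_
  · filter_upwards [self_mem_nhdsWithin] with h hh
    exact (Pool.Agent.H888R2.KT.N7x.cont_gs h hh F hF B hb).aestronglyMeasurable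
  · filter_upwards [self_mem_nhdsWithin] with h hh
    exact Filter.Eventually.of_forall fun x => by
      rw [Real.norm_eq_abs]
      exact gs_bdd h hh F B hb x
  · exact Filter.Eventually.of_forall fun x => gs_tendsto F hF B hb x

/-- the Gaussian factor -/
noncomputable def gg (a : ℝ) (p x : Eu κ) : ℝ := Real.exp (-(a / 2 * ‖x - p‖ ^ 2))

theorem gg_cont (a : ℝ) (p : Eu κ) : Continuous (gg a p) := by
  unfold gg
  fun_prop

theorem gg_pos (a : ℝ) (p x : Eu κ) : 0 < gg a p x := Real.exp_pos _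

theorem gg_le (a : ℝ) (ha : 0 < a) (p x : Eu κ) : gg a p x ≤ 1 := by
  unfold gg
  rw [Real.exp_le_one_iff]
  have : 0 ≤ a / 2 * ‖x - p‖ ^ 2 := by positivity
  linarith

theorem gg_lin (a : ℝ) (ha : 0 < a) (p x : Eu κ) : ‖x‖ * gg a p x ≤ 1 + 2 / a + ‖p‖ := by
  have h1 : ‖x‖ ≤ ‖x - p‖ + ‖p‖ := by
    have := norm_add_le (x - p) p
    simpa using this
  have h2 : ‖x - p‖ * gg a p x ≤ 1 + 2 / a := by
    have e : gg a p x = (Real.exp (a / 2 * ‖x - p‖ ^ 2))⁻¹ := by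
      unfold gg
      rw [Real.exp_neg]
    have h3 := Real.add_one_le_exp (a / 2 * ‖x - p‖ ^ 2)
    rw [e, ← div_eq_mul_inv, div_le_iff₀ (Real.exp_pos _)]
    have h4 : ‖x - p‖ ≤ (1 + 2 / a) * (a / 2 * ‖x - p‖ ^ 2 + 1) := by
      have e2 : (1 + 2 / a) * (a / 2 * ‖x - p‖ ^ 2 + 1) =
          a / 2 * ‖x - p‖ ^ 2 + 1 + ‖x - p‖ ^ 2 + 2 / a := by
        field_simp
        ring
      rw [e2]
      have : 0 ≤ a / 2 * ‖x - p‖ ^ 2 := by positivity
      have : 0 < 2 / a := by positivity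
      nlinarith [sq_nonneg (‖x - p‖ - 1)]
    have h5 : 0 ≤ 1 + 2 / a := by positivity
    exact h4.trans (mul_le_mul_of_nonneg_left h3 h5)
  have h6 := gg_pos a p x
  have h7 := gg_le a ha p x
  have h8 := norm_nonneg p
  nlinarith [mul_le_mul_of_nonneg_right h1 h6.le, mul_le_mul_of_nonneg_left h7 h8]

/-- the inequality for functions that are bounded with bounded derivative -/
theorem core (h1 : S_COS) (h2 : S_SMZ) {ρ : Eu κ → ℝ} (hρ : LC ρ) (a : ℝ) (p : Eu κ) (ha : 0 < a)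
    (u : Eu κ → ℝ) (hu : ContDiff ℝ 1 u) (B : ℝ) (hB : ∀ x, |u x| ≤ B)
    (hB' : ∀ x, ‖fderiv ℝ u x‖ ≤ B) (w : Eu κ) :
    |(∫ x, u x * ⟪w, x⟫_ℝ * gg a p x ∂(mu ρ)) * (∫ x, gg a p x ∂(mu ρ)) -
      (∫ x, u x * gg a p x ∂(mu ρ)) * ∫ x, ⟪w, x⟫_ℝ * gg a p x ∂(mu ρ)| ≤
      a⁻¹ * ‖w‖ * (∫ x, ‖fderiv ℝ u x‖ * gg a p x ∂(mu ρ)) * ∫ x, gg a p x ∂(mu ρ) := by
  have hB0 : 0 ≤ B := (abs_nonneg _).trans (hB 0)
  have hgc := gg_cont a p
  have huc := hu.continuous
  have hdc : Continuous fun x => ‖fderiv ℝ u x‖ := (hu.continuous_fderiv (by norm_num)).norm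
  have hwb : ∀ x, |⟪w, x⟫_ℝ * gg a p x| ≤ ‖w‖ * (1 + 2 / a + ‖p‖) := by
    intro x
    rw [abs_mul, abs_of_pos (gg_pos a p x)]
    calc |⟪w, x⟫_ℝ| * gg a p x ≤ ‖w‖ * ‖x‖ * gg a p x :=
          mul_le_mul_of_nonneg_right (abs_real_inner_le_norm w x) (gg_pos a p x).le
      _ = ‖w‖ * (‖x‖ * gg a p x) := by ring
      _ ≤ _ := mul_le_mul_of_nonneg_left (gg_lin a ha p x) (norm_nonneg w)
  have t1 := int_tendsto hρ (fun x => u x * ⟪w, x⟫_ℝ * gg a p x) (by fun_prop)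
    (B * (‖w‖ * (1 + 2 / a + ‖p‖))) (fun x => by
      rw [mul_assoc, abs_mul]
      exact mul_le_mul (hB x) (hwb x) (abs_nonneg _) hB0)
  have t2 := int_tendsto hρ (fun x => gg a p x) hgc 1 (fun x => by
      rw [abs_of_pos (gg_pos a p x)]
      exact gg_le a ha p x)
  have t3 := int_tendsto hρ (fun x => u x * gg a p x) (by fun_prop) B (fun x => by
      rw [abs_mul, abs_of_pos (gg_pos a p x)]
      calc |u x| * gg a p x ≤ B * 1 :=
            mul_le_mul (hB x) (gg_le a ha p x) (gg_pos a p x).le hB0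
        _ = B := mul_one B)
  have t4 := int_tendsto hρ (fun x => ⟪w, x⟫_ℝ * gg a p x) (by fun_prop) _ hwb
  have t5 := int_tendsto hρ (fun x => ‖fderiv ℝ u x‖ * gg a p x) (hdc.mul hgc) B (fun x => by
      rw [abs_mul, abs_of_pos (gg_pos a p x), abs_norm]
      calc ‖fderiv ℝ u x‖ * gg a p x ≤ B * 1 :=
            mul_le_mul (hB' x) (gg_le a ha p x) (gg_pos a p x).le hB0
        _ = B := mul_one B)
  refine le_of_tendsto_of_tendsto ((t1.mul t2).sub (t3.mul t4)).abs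
    (((tendsto_const_nhds (x := a⁻¹ * ‖w‖)).mul t5).mul t2) ?_
  filter_upwards [self_mem_nhdsWithin] with h hh
  have hh' : 0 < h := hh
  obtain ⟨z1, z2, z3⟩ := h2 κ ρ hρ h hh'
  -- the potential
  set U : Eu κ → ℝ := fun x => -Real.log (zz h ρ x) + a / 2 * ‖x - p‖ ^ 2 with hU
  have hUs : ContDiff ℝ ∞ U := by
    rw [hU]
    exact z2.add ((contDiff_const.mul ((contDiff_id.sub contDiff_const).norm_sq ℝ)))
  have hUc : SCv U a := by
    unfold SCv
    have e : (fun x : Eu κ => U x - a / 2 * ‖x‖ ^ 2) =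
        (fun x => -Real.log (zz h ρ x)) + fun x => a / 2 * ‖p‖ ^ 2 - a * ⟪x, p⟫_ℝ := by
      funext x
      simp only [hU, Pi.add_apply]
      rw [norm_sub_sq_real]
      ring
    rw [e]
    refine z3.add ?_
    refine ⟨convex_univ, fun x _ y _ s t hs ht hst => ?_⟩
    simp only [smul_eq_mul]
    rw [inner_add_left, real_inner_smul_left, real_inner_smul_left]
    have : a / 2 * ‖p‖ ^ 2 = (s + t) * (a / 2 * ‖p‖ ^ 2) := by rw [hst, one_mul]
    nlinarith [this]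
  have hexp : ∀ x, Real.exp (-U x) = gg a p x * zz h ρ x := by
    intro x
    simp only [hU, gg]
    rw [neg_add, neg_neg, Real.exp_add, Real.exp_log (z1 x), mul_comm]
  have hcos := h1 κ U a ha hUs hUc u B hu hB hB' w
  have f1 := fubz hρ h hh' (fun x => u x * ⟪w, x⟫_ℝ * gg a p x) (by fun_prop)
    (B * (‖w‖ * (1 + 2 / a + ‖p‖))) (fun x => by
      rw [mul_assoc, abs_mul]
      exact mul_le_mul (hB x) (hwb x) (abs_nonneg _) hB0)
  have f2 := fubz hρ h hh' (fun x => gg a p x) hgc 1 (fun x => by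
      rw [abs_of_pos (gg_pos a p x)]
      exact gg_le a ha p x)
  have f3 := fubz hρ h hh' (fun x => u x * gg a p x) (by fun_prop) B (fun x => by
      rw [abs_mul, abs_of_pos (gg_pos a p x)]
      calc |u x| * gg a p x ≤ B * 1 :=
            mul_le_mul (hB x) (gg_le a ha p x) (gg_pos a p x).le hB0
        _ = B := mul_one B)
  have f4 := fubz hρ h hh' (fun x => ⟪w, x⟫_ℝ * gg a p x) (by fun_prop) _ hwb
  have f5 := fubz hρ h hh' (fun x => ‖fderiv ℝ u x‖ * gg a p x) (hdc.mul hgc) B (fun x => by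
      rw [abs_mul, abs_of_pos (gg_pos a p x), abs_norm]
      calc ‖fderiv ℝ u x‖ * gg a p x ≤ B * 1 :=
            mul_le_mul (hB' x) (gg_le a ha p x) (gg_pos a p x).le hB0
        _ = B := mul_one B)
  have e1 : ∫ x, u x * ⟪w, x⟫_ℝ * Real.exp (-U x) =
      ∫ x, (fun x => u x * ⟪w, x⟫_ℝ * gg a p x) x * zz h ρ x := by
    refine integral_congr_ae (Filter.Eventually.of_forall fun x => ?_)
    simp only [hexp]
    ring
  have e2 : ∫ x, Real.exp (-U x) = ∫ x, (fun x => gg a p x) x * zz h ρ x := by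
    refine integral_congr_ae (Filter.Eventually.of_forall fun x => ?_)
    simp only [hexp]
  have e3 : ∫ x, u x * Real.exp (-U x) = ∫ x, (fun x => u x * gg a p x) x * zz h ρ x := by
    refine integral_congr_ae (Filter.Eventually.of_forall fun x => ?_)
    simp only [hexp]
    ring
  have e4 : ∫ x, ⟪w, x⟫_ℝ * Real.exp (-U x) =
      ∫ x, (fun x => ⟪w, x⟫_ℝ * gg a p x) x * zz h ρ x := by
    refine integral_congr_ae (Filter.Eventually.of_forall fun x => ?_)
    simp only [hexp]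
    ring
  have e5 : ∫ x, ‖fderiv ℝ u x‖ * Real.exp (-U x) =
      ∫ x, (fun x => ‖fderiv ℝ u x‖ * gg a p x) x * zz h ρ x := by
    refine integral_congr_ae (Filter.Eventually.of_forall fun x => ?_)
    simp only [hexp]
    ring
  rw [e1, e2, e3, e4, e5, f1, f2, f3, f4, f5] at hcos
  have hg := (Pool.Agent.H888R2.KT.gc_pos (κ := κ) h hh').1
  set G := gc κ h
  set I1 := ∫ x, gs h (fun x => u x * ⟪w, x⟫_ℝ * gg a p x) x ∂(mu ρ)
  set I2 := ∫ x, gs h (fun x => gg a p x) x ∂(mu ρ)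
  set I3 := ∫ x, gs h (fun x => u x * gg a p x) x ∂(mu ρ)
  set I4 := ∫ x, gs h (fun x => ⟪w, x⟫_ℝ * gg a p x) x ∂(mu ρ)
  set I5 := ∫ x, gs h (fun x => ‖fderiv ℝ u x‖ * gg a p x) x ∂(mu ρ)
  have q1 : G * I1 * (G * I2) - G * I3 * (G * I4) = G ^ 2 * (I1 * I2 - I3 * I4) := by ring
  have q2 : a⁻¹ * ‖w‖ * (G * I5) * (G * I2) = G ^ 2 * (a⁻¹ * ‖w‖ * I5 * I2) := by ring
  rw [q1, q2, abs_mul, abs_of_pos (by positivity : 0 < G ^ 2)] at hcos
  exact le_of_mul_le_mul_left hcos (by positivity)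

/-- the covariance inequality -/
theorem col (h1 : S_COS) (h2 : S_SMZ) (_h3 : S_GSF) : S_COL := by
  intro κ _ ρ hρ a p ha u hu w
  obtain ⟨R, hR0, hR⟩ := Pool.Agent.H888R2.KT.N3x.ae_bdd hρ
  let χ : ContDiffBump (0 : Eu κ) := ⟨R + 1, R + 2, by linarith, by linarith⟩
  set v : Eu κ → ℝ := fun x => χ x * u x with hv
  have hvd : ContDiff ℝ 1 v := by
    rw [hv]
    exact χ.contDiff.mul hu
  have hvs : HasCompactSupport v := χ.hasCompactSupport.mul_right
  obtain ⟨B1, hB1⟩ := hvs.exists_bound_of_continuous hvd.continuous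
  obtain ⟨B2, hB2⟩ := (hvs.fderiv ℝ).exists_bound_of_continuous
    (hvd.continuous_fderiv (by norm_num))
  have hone : ∀ x : Eu κ, ‖x‖ ≤ R → v =ᶠ[𝓝 x] u := by
    intro x hx
    have : ∀ᶠ y in 𝓝 x, ‖y‖ < R + 1 :=
      continuous_norm.continuousAt.eventually_lt continuousAt_const (by linarith)
    filter_upwards [this] with y hy
    have h5 : χ y = 1 := χ.one_of_mem_closedBall (by
      rw [mem_closedBall_zero_iff]
      exact hy.le)
    simp only [hv, h5, one_mul]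
  have hc := core h1 h2 hρ a p ha v hvd (max B1 B2)
    (fun x => (by simpa using hB1 x : |v x| ≤ B1).trans (le_max_left _ _))
    (fun x => (hB2 x).trans (le_max_right _ _)) w
  have i1 : ∫ x, v x * ⟪w, x⟫_ℝ * gg a p x ∂(mu ρ) = ∫ x, u x * ⟪w, x⟫_ℝ * gg a p x ∂(mu ρ) := by
    refine integral_congr_ae ?_
    filter_upwards [hR] with x hx
    rw [(hone x hx).eq_of_nhds]
  have i3 : ∫ x, v x * gg a p x ∂(mu ρ) = ∫ x, u x * gg a p x ∂(mu ρ) := by
    refine integral_congr_ae ?_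
    filter_upwards [hR] with x hx
    rw [(hone x hx).eq_of_nhds]
  have i5 : ∫ x, ‖fderiv ℝ v x‖ * gg a p x ∂(mu ρ) = ∫ x, ‖fderiv ℝ u x‖ * gg a p x ∂(mu ρ) := by
    refine integral_congr_ae ?_
    filter_upwards [hR] with x hx
    rw [(hone x hx).fderiv_eq]
  rw [i1, i3, i5] at hc
  exact hc

end Pool.Agent.Q31.EM.COL
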