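import Pool.Agent.Q86.EM.Stm5
import Pool.Agent.Q65.EM.Smz

set_option autoImplicit false

/-!
# The Gaussian regularisation of a log-concave density of bounded support has temperate growth
-/

namespace Pool.Agent.Q31.EM.DPT

open MeasureTheory Set Filter Topology
open scoped ENNReal InnerProductSpace ContDiff
open Pool.Agent.H888R2.KT (LC pst gs zz gc)
open Pool.Agent.H212R2.KLS (mu Bdd)
open Pool.Agent.Q86.EM

/-! ### functions with bounded derivatives -/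

section

variable {E F G : Type*} [NormedAddCommGroup E] [NormedSpace ℝ E] [NormedAddCommGroup F]
  [NormedSpace ℝ F] [NormedAddCommGroup G] [NormedSpace ℝ G]

/-- smooth, with bounded derivatives of order at most `n` -/
def BD (n : ℕ) (f : E → F) : Prop :=
  ContDiff ℝ ∞ f ∧ ∀ m ≤ n, ∃ C : ℝ, ∀ x, ‖iteratedFDeriv ℝ m f x‖ ≤ C

lemma cd {f : E → F} (h : ContDiff ℝ ∞ f) (m : ℕ) : ContDiff ℝ (m : WithTop ℕ∞) f :=
  h.of_le (by exact_mod_cast le_top)

lemma BD.sub {n : ℕ} {f g : E → F} (hf : BD n f) (hg : BD n g) : BD n (fun x => f x - g x) := by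
  refine ⟨hf.1.sub hg.1, fun m hm => ?_⟩
  obtain ⟨C, hC⟩ := hf.2 m hm
  obtain ⟨D, hD⟩ := hg.2 m hm
  refine ⟨C + D, fun x => ?_⟩
  have e : iteratedFDeriv ℝ m (fun x => f x - g x) x =
      iteratedFDeriv ℝ m f x - iteratedFDeriv ℝ m g x :=
    iteratedFDeriv_sub_apply (cd hf.1 m).contDiffAt (cd hg.1 m).contDiffAt
  rw [e]
  exact (norm_sub_le _ _).trans (add_le_add (hC x) (hD x))

lemma BD.sum {ι : Type*} {n : ℕ} {s : Finset ι} {f : ι → E → F} (hf : ∀ i ∈ s, BD n (f i)) :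
    BD n (fun x => ∑ i ∈ s, f i x) := by
  refine ⟨ContDiff.sum fun i hi => (hf i hi).1, fun m hm => ?_⟩
  choose! C hC using fun i hi => (hf i hi).2 m hm
  refine ⟨∑ i ∈ s, C i, fun x => ?_⟩
  rw [iteratedFDeriv_fun_sum_apply fun i hi => (cd (hf i hi).1 m).contDiffAt]
  exact (norm_sum_le _ _).trans (Finset.sum_le_sum fun i hi => hC i hi x)

lemma BD.mul {n : ℕ} {f g : E → ℝ} (hf : BD n f) (hg : BD n g) : BD n (fun x => f x * g x) := by
  refine ⟨hf.1.mul hg.1, fun m hm => ?_⟩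
  choose! C hC using hf.2
  choose! D hD using hg.2
  refine ⟨∑ i ∈ Finset.range (m + 1), (m.choose i : ℝ) * C i * D (m - i), fun x => ?_⟩
  refine (norm_iteratedFDeriv_mul_le (N := (m : WithTop ℕ∞)) (cd hf.1 m) (cd hg.1 m) x le_rfl).trans ?_
  refine Finset.sum_le_sum fun i hi => ?_
  rw [Finset.mem_range] at hi
  have h1 := hC i (by omega) x
  have h2 := hD (m - i) (by omega) x
  have h3 : 0 ≤ C i := (norm_nonneg _).trans h1
  gcongr

lemma BD.clm {n : ℕ} {f : E → F} (L : F →L[ℝ] G) (hf : BD n f) : BD n (fun x => L (f x)) := by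
  refine ⟨L.contDiff.comp hf.1, fun m hm => ?_⟩
  obtain ⟨C, hC⟩ := hf.2 m hm
  refine ⟨‖L‖ * C, fun x => ?_⟩
  have := L.norm_iteratedFDeriv_comp_left (N := (m : WithTop ℕ∞)) (n := m) (x := x)
    (cd hf.1 m).contDiffAt le_rfl
  exact this.trans (mul_le_mul_of_nonneg_left (hC x) (norm_nonneg _))

lemma BD.const (n : ℕ) (c : F) : BD n (fun _ : E => c) := by
  refine ⟨contDiff_const, fun m _ => ?_⟩
  rcases Nat.eq_zero_or_pos m with rfl | h
  · exact ⟨‖c‖, fun x => by rw [norm_iteratedFDeriv_zero]⟩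
  · refine ⟨0, fun x => ?_⟩
    rw [iteratedFDeriv_const_of_ne h.ne']
    simp

lemma BD.succ {n : ℕ} {f : E → F} (h0 : ContDiff ℝ ∞ f) (hb : ∃ C : ℝ, ∀ x, ‖f x‖ ≤ C)
    (h1 : BD n (fderiv ℝ f)) : BD (n + 1) f := by
  refine ⟨h0, fun m hm => ?_⟩
  rcases m with _ | m
  · obtain ⟨C, hC⟩ := hb
    exact ⟨C, fun x => by rw [norm_iteratedFDeriv_zero]; exact hC x⟩
  · obtain ⟨C, hC⟩ := h1.2 m (by omega)
    exact ⟨C, fun x => by rw [← norm_iteratedFDeriv_fderiv]; exact hC x⟩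

lemma BD.tg {f : E → F} (h : ∀ n, BD n f) : f.HasTemperateGrowth := by
  refine ⟨(h 0).1, fun n => ?_⟩
  obtain ⟨C, hC⟩ := (h n).2 n le_rfl
  exact ⟨0, C, fun x => by simpa using hC x⟩

end

section

variable {κ : Type} [Fintype κ] {ρ : Eu κ → ℝ}

open Classical in
lemma clm_eq (T : Eu κ →L[ℝ] ℝ) : T = ∑ i, (T (EuclideanSpace.single i 1)) •
    (EuclideanSpace.proj i : Eu κ →L[ℝ] ℝ) := by
  ext w
  conv_lhs => rw [← (EuclideanSpace.basisFun κ ℝ).sum_repr w]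
  simp [mul_comm]

lemma pst_smooth_top (hρ : LC ρ) (h : ℝ) (hh : 0 < h) (v : Eu κ → ℝ) (hv : Continuous v) :
    ContDiff ℝ ∞ (pst h ρ v) := by
  rw [contDiff_infty]
  intro n
  exact Pool.Agent.H888R2.KT.N4x.smooth hρ h hh n v hv

lemma pst_bd (hρ : LC ρ) (h : ℝ) (hh : 0 < h) (v : Eu κ → ℝ) (hv : Continuous v) :
    ∃ C : ℝ, ∀ y, ‖pst h ρ v y‖ ≤ C := by
  obtain ⟨-, B, hB⟩ := Pool.Agent.H888R2.KT.pst_smooth hρ h hh v hv
  exact ⟨B, fun y => (hB y).1⟩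

open Classical in
lemma pst_BD (hρ : LC ρ) (h : ℝ) (hh : 0 < h) (n : ℕ) : ∀ v : Eu κ → ℝ, Continuous v →
    BD n (pst h ρ v) := by
  induction n with
  | zero =>
    intro v hv
    refine ⟨pst_smooth_top hρ h hh v hv, fun m hm => ?_⟩
    obtain rfl : m = 0 := by omega
    obtain ⟨C, hC⟩ := pst_bd hρ h hh v hv
    exact ⟨C, fun x => by rw [norm_iteratedFDeriv_zero]; exact hC x⟩
  | succ n ih =>
    intro v hv
    refine BD.succ (pst_smooth_top hρ h hh v hv) (pst_bd hρ h hh v hv) ?_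
    have e : fderiv ℝ (pst h ρ v) = fun y => ∑ i : κ,
        (ContinuousLinearMap.smulRight (1 : ℝ →L[ℝ] ℝ) (EuclideanSpace.proj i : Eu κ →L[ℝ] ℝ))
          (h⁻¹ * (pst h ρ (fun x => v x * ⟪x, EuclideanSpace.single i (1:ℝ)⟫_ℝ) y -
            pst h ρ v y * pst h ρ (fun x => ⟪x, EuclideanSpace.single i (1:ℝ)⟫_ℝ) y)) := by
      funext y
      rw [clm_eq (fderiv ℝ (pst h ρ v) y)]
      refine Finset.sum_congr rfl fun i _ => ?_
      rw [(Pool.Agent.H888R2.KT.pst_deriv hρ h hh v hv y).2]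
      rfl
    rw [e]
    refine BD.sum fun i _ => BD.clm _ ((BD.const n h⁻¹).mul ((ih _ ?_).sub ((ih _ hv).mul (ih _ ?_))))
    · exact hv.mul (Pool.Agent.H888R2.KT.N4x.cin _)
    · exact Pool.Agent.H888R2.KT.N4x.cin _

lemma pst_tg (hρ : LC ρ) (h : ℝ) (hh : 0 < h) (v : Eu κ → ℝ) (hv : Continuous v) :
    (pst h ρ v).HasTemperateGrowth :=
  BD.tg fun n => pst_BD hρ h hh n v hv

lemma mass_pos (hρ : LC ρ) : 0 < (mu ρ univ).toReal := by
  have h1 : mu ρ univ ≠ 0 := by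
    rw [Ne, Measure.measure_univ_eq_zero]
    exact hρ.ne
  exact ENNReal.toReal_pos h1 hρ.fin

lemma zz_bounds (hρ : LC ρ) (h : ℝ) (hh : 0 < h) : ∃ R : ℝ, 0 ≤ R ∧ ∀ y,
    zz h ρ y ≤ (mu ρ univ).toReal ∧
    Real.exp (-((R + ‖y‖) ^ 2 / (2 * h))) * (mu ρ univ).toReal ≤ zz h ρ y := by
  have := Pool.Agent.H888R2.KT.N3x.fin_mu hρ
  obtain ⟨R, hR0, hR⟩ := Pool.Agent.H888R2.KT.N3x.ae_bdd hρ
  refine ⟨R, hR0, fun y => ?_⟩
  have hi : Integrable (fun x : Eu κ => Real.exp (-(‖x - y‖ ^ 2 / (2 * h)))) (mu ρ) :=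
    Pool.Agent.H888R2.KT.N3x.integ hρ (by fun_prop)
  constructor
  · calc zz h ρ y ≤ ∫ _x, (1:ℝ) ∂(mu ρ) := by
          refine integral_mono hi (integrable_const _) fun x => ?_
          simp only
          refine Real.exp_le_one_iff.mpr ?_
          have : 0 ≤ ‖x - y‖ ^ 2 / (2 * h) := by positivity
          linarith
      _ = (mu ρ univ).toReal := by
        rw [integral_const, smul_eq_mul, mul_one]
        rfl
  · calc Real.exp (-((R + ‖y‖) ^ 2 / (2 * h))) * (mu ρ univ).toReal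
        = ∫ _x, Real.exp (-((R + ‖y‖) ^ 2 / (2 * h))) ∂(mu ρ) := by
          rw [integral_const, smul_eq_mul, mul_comm]
          rfl
      _ ≤ zz h ρ y := by
        refine integral_mono_ae (integrable_const _) hi ?_
        filter_upwards [hR] with x hx
        refine Real.exp_le_exp.mpr (neg_le_neg ?_)
        have h1 : ‖x - y‖ ≤ R + ‖y‖ := (norm_sub_le _ _).trans (by linarith)
        gcongr

lemma Uh_eq (hρ : LC ρ) (h : ℝ) (hh : 0 < h) (y : Eu κ) :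
    Uh h ρ y = -Real.log (zz h ρ y) + Real.log (gc κ h) := by
  have h1 := Pool.Agent.H888R2.KT.N3x.zz_pos' hρ h y
  have h2 := (Pool.Agent.H888R2.KT.gc_pos (κ := κ) h hh).1
  unfold Uh sh
  rw [Real.log_div h1.ne' h2.ne']
  ring

lemma Uh_bound (hρ : LC ρ) (h : ℝ) (hh : 0 < h) : ∃ C : ℝ, ∀ y, ‖Uh h ρ y‖ ≤ C * (1 + ‖y‖) ^ 2 := by
  obtain ⟨R, hR, hb⟩ := zz_bounds hρ h hh
  have hM := mass_pos hρ
  set M := (mu ρ univ).toReal with hMdef
  refine ⟨|Real.log M| + (R + 1) ^ 2 / (2 * h) + |Real.log (gc κ h)|, fun y => ?_⟩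
  obtain ⟨h1, h2⟩ := hb y
  have hz := Pool.Agent.H888R2.KT.N3x.zz_pos' hρ h y
  have l1 : Real.log (zz h ρ y) ≤ Real.log M := Real.log_le_log hz h1
  have l2 : -((R + ‖y‖) ^ 2 / (2 * h)) + Real.log M ≤ Real.log (zz h ρ y) := by
    have := Real.log_le_log (mul_pos (Real.exp_pos _) hM) h2
    rwa [Real.log_mul (Real.exp_pos _).ne' hM.ne', Real.log_exp] at this
  have h3 : (R + ‖y‖) ^ 2 / (2 * h) ≤ (R + 1) ^ 2 / (2 * h) * (1 + ‖y‖) ^ 2 := by
    have h4 : R + ‖y‖ ≤ (R + 1) * (1 + ‖y‖) := by nlinarith [norm_nonneg y]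
    calc (R + ‖y‖) ^ 2 / (2 * h) ≤ ((R + 1) * (1 + ‖y‖)) ^ 2 / (2 * h) := by gcongr
      _ = _ := by ring
  have h5 : (1:ℝ) ≤ (1 + ‖y‖) ^ 2 := by nlinarith [norm_nonneg y]
  have h6 : |Real.log (zz h ρ y)| ≤ |Real.log M| + (R + ‖y‖) ^ 2 / (2 * h) := by
    have h7 : 0 ≤ (R + ‖y‖) ^ 2 / (2 * h) := by positivity
    have h8 := neg_abs_le (Real.log M)
    have h9 := le_abs_self (Real.log M)
    rw [abs_le]
    constructor <;> linarith
  rw [Uh_eq hρ h hh, Real.norm_eq_abs]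
  have h7 := abs_add_le (-Real.log (zz h ρ y)) (Real.log (gc κ h))
  rw [abs_neg] at h7
  have h8 := abs_nonneg (Real.log M)
  have h9 := abs_nonneg (Real.log (gc κ h))
  nlinarith

open Classical in
lemma Uh_tg (hρ : LC ρ) (h : ℝ) (hh : 0 < h) : (Uh h ρ).HasTemperateGrowth := by
  obtain ⟨C, hC⟩ := Uh_bound hρ h hh
  have e0 : Uh h ρ = fun y => -Real.log (zz h ρ y) + Real.log (gc κ h) := funext (Uh_eq hρ h hh)
  have hdiff : Differentiable ℝ (Uh h ρ) := by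
    rw [e0]
    exact fun y => ((Pool.Agent.Q65.EM.log_zz_deriv hρ h hh y).1.neg).add_const _
  have e : fderiv ℝ (Uh h ρ) = fun y => ∑ i : κ,
      (ContinuousLinearMap.smulRight (1 : ℝ →L[ℝ] ℝ) (EuclideanSpace.proj i : Eu κ →L[ℝ] ℝ))
        (h⁻¹ * (⟪y, EuclideanSpace.single i (1:ℝ)⟫_ℝ -
          pst h ρ (fun x => ⟪x, EuclideanSpace.single i (1:ℝ)⟫_ℝ) y)) := by
    funext y
    rw [clm_eq (fderiv ℝ (Uh h ρ) y)]
    refine Finset.sum_congr rfl fun i _ => ?_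
    have h1 : fderiv ℝ (Uh h ρ) y = -fderiv ℝ (fun y => Real.log (zz h ρ y)) y := by
      rw [e0, fderiv_add_const]
      exact fderiv_neg
    rw [h1, _root_.neg_apply, (Pool.Agent.Q65.EM.log_zz_deriv hρ h hh y).2]
    have h2 : -(h⁻¹ * (pst h ρ (fun x => ⟪x, EuclideanSpace.single i (1:ℝ)⟫_ℝ) y -
        ⟪y, EuclideanSpace.single i (1:ℝ)⟫_ℝ)) = h⁻¹ * (⟪y, EuclideanSpace.single i (1:ℝ)⟫_ℝ -
          pst h ρ (fun x => ⟪x, EuclideanSpace.single i (1:ℝ)⟫_ℝ) y) := by ring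
    rw [h2]
    rfl
  refine Function.HasTemperateGrowth.of_fderiv ?_ hdiff hC
  rw [e]
  refine Function.HasTemperateGrowth.sum fun i _ => ?_
  have h1 : (fun y : Eu κ => h⁻¹ * (⟪y, EuclideanSpace.single i (1:ℝ)⟫_ℝ -
          pst h ρ (fun x => ⟪x, EuclideanSpace.single i (1:ℝ)⟫_ℝ) y)).HasTemperateGrowth := by
    have h2 := pst_tg hρ h hh (fun x => ⟪x, EuclideanSpace.single i (1:ℝ)⟫_ℝ)
      (Pool.Agent.H888R2.KT.N4x.cin _)
    fun_prop
  exact (ContinuousLinearMap.hasTemperateGrowth _).comp h1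

theorem dpt : S_DPT := by
  intro κ _ ρ hρ h hh
  have hz := fun y => Pool.Agent.H888R2.KT.N3x.zz_pos' hρ h y
  have hg := (Pool.Agent.H888R2.KT.gc_pos (κ := κ) h hh).1
  have hpos : ∀ y, 0 < sh h ρ y := fun y => div_pos (hz y) hg
  have hexp : ∀ y, Real.exp (-Uh h ρ y) = sh h ρ y := by
    intro y
    unfold Uh
    rw [neg_neg, Real.exp_log (hpos y)]
  obtain ⟨i1, e1⟩ := Pool.Agent.H888R2.KT.N9ax.fub1 hρ h hh (fun _ => 1) continuous_const
  simp only [Pool.Agent.H888R2.KT.N9ax.pst_one hρ h hh, one_mul] at i1 e1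
  have hsh : sh h ρ = fun y => zz h ρ y / gc κ h := rfl
  have hint : Integrable (sh h ρ) := by
    rw [hsh]
    exact i1.div_const _
  refine ⟨hpos, hexp, ⟨Uh_tg hρ h hh, ?_, ?_⟩, ?_⟩
  · obtain ⟨-, -, h3⟩ := Pool.Agent.Q65.EM.smz κ ρ hρ h hh
    have e0 : Uh h ρ = fun y => -Real.log (zz h ρ y) + Real.log (gc κ h) := funext (Uh_eq hρ h hh)
    rw [e0]
    exact h3.add_const _
  · simp_rw [hexp]
    exact hint
  · have h1 : ∫ y, sh h ρ y = (gc κ h)⁻¹ * ∫ y, zz h ρ y := by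
      rw [← integral_const_mul]
      refine integral_congr_ae (Eventually.of_forall fun y => ?_)
      exact div_eq_inv_mul _ _
    rw [h1, ← e1, integral_const, smul_eq_mul, mul_one]
    have h2 : (mu ρ).real univ = (mu ρ univ).toReal := rfl
    rw [h2, integral_eq_lintegral_of_nonneg_ae (Eventually.of_forall hρ.nonneg)
      hρ.meas.aestronglyMeasurable]
    congr 1
    unfold mu
    rw [withDensity_apply _ MeasurableSet.univ, Measure.restrict_univ]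

end

end Pool.Agent.Q31.EM.DPT
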